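import Pool.Agent.TH719.ED.Defs

set_option autoImplicit false

/-!
# Job H719-5: a rough function (helper642)
-/

namespace Pool.Agent.TH719.ED

open scoped Pointwise

namespace RF642

open Filter Topology

/-- amplitudes -/
noncomputable def am (l : ℕ) : ℝ := (1 / 2) ^ (l ^ 2)

theorem am_pos (l : ℕ) : 0 < am l := by unfold am; positivity

theorem am_zero : am 0 = 1 := by simp [am]

theorem am_succ (l : ℕ) : am (l + 1) = am l * ((1 / 2) * (1 / 4) ^ l) := by
  unfold am
  have h : (l + 1) ^ 2 = l ^ 2 + (1 + 2 * l) := by ring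
  rw [h, pow_add, pow_add, pow_mul]
  norm_num

theorem am_succ_le (l : ℕ) : am (l + 1) ≤ am l / 2 := by
  rw [am_succ]
  have h1 : ((1 : ℝ) / 4) ^ l ≤ 1 := pow_le_one₀ (by norm_num) (by norm_num)
  have h2 := am_pos l
  nlinarith

theorem am_add_le (l i : ℕ) : am (l + i) ≤ am l * (1 / 2) ^ i := by
  induction i with
  | zero => simp
  | succ i ih =>
    have h := am_succ_le (l + i)
    rw [pow_succ]
    have : l + (i + 1) = (l + i) + 1 := by ring
    rw [this]
    linarith

theorem am_le_geom (i : ℕ) : am i ≤ (1 / 2) ^ i := by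
  have := am_add_le 0 i
  simpa [am_zero] using this

theorem am_le_one (i : ℕ) : am i ≤ 1 :=
  (am_le_geom i).trans (pow_le_one₀ (by norm_num) (by norm_num))

theorem am_tendsto : Tendsto am atTop (𝓝 0) :=
  squeeze_zero (fun i => (am_pos i).le) am_le_geom
    (tendsto_pow_atTop_nhds_zero_of_lt_one (by norm_num) (by norm_num))

theorem summable_am : Summable am :=
  Summable.of_nonneg_of_le (fun i => (am_pos i).le) am_le_geom
    (summable_geometric_of_lt_one (by norm_num) (by norm_num))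

theorem tsum_am_tail (J : ℕ) : ∑' l, am (l + J) ≤ 2 * am J := by
  have h1 : Summable (fun l => am (l + J)) := (summable_nat_add_iff J).2 summable_am
  have h2 : Summable (fun l : ℕ => am J * (1 / 2 : ℝ) ^ l) :=
    (summable_geometric_of_lt_one (by norm_num) (by norm_num)).mul_left _
  calc ∑' l, am (l + J) ≤ ∑' l : ℕ, am J * (1 / 2 : ℝ) ^ l := by
        apply h1.tsum_le_tsum _ h2
        intro l
        rw [add_comm l J]
        exact am_add_le J l
    _ = am J * ∑' l : ℕ, (1 / 2 : ℝ) ^ l := tsum_mul_left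
    _ = 2 * am J := by rw [tsum_geometric_two]; ring

theorem sum_inv_am (J : ℕ) : ∑ l ∈ Finset.range J, (am l)⁻¹ ≤ (am J)⁻¹ := by
  induction J with
  | zero => simp [(am_pos 0).le]
  | succ J ih =>
    rw [Finset.sum_range_succ]
    have h1 := am_succ_le J
    have h2 := am_pos J
    have h3 := am_pos (J + 1)
    have h4 : 2 * (am J)⁻¹ ≤ (am (J + 1))⁻¹ := by
      rw [← div_eq_mul_inv, div_le_iff₀ h2, inv_mul_eq_div, le_div_iff₀ h3]
      linarith
    linarith

theorem sum_inv_am' (J : ℕ) : ∑ l ∈ Finset.range (J + 1), (am l)⁻¹ ≤ 2 * (am J)⁻¹ := by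
  rw [Finset.sum_range_succ]
  have := sum_inv_am J
  linarith

/-- frequencies -/
noncomputable def fr (l : ℕ) : ℝ := ((am l) ^ 2)⁻¹

theorem fr_pos (l : ℕ) : 0 < fr l := by
  unfold fr
  have := am_pos l
  positivity

theorem am_mul_fr (l : ℕ) : am l * fr l = (am l)⁻¹ := by
  unfold fr
  have := (am_pos l).ne'
  field_simp

theorem fr_tendsto : Tendsto fr atTop atTop := by
  have h : Tendsto (fun l => (am l) ^ 2) atTop (𝓝[>] 0) := by
    rw [tendsto_nhdsWithin_iff]
    constructor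
    · have := am_tendsto.pow 2
      simpa using this
    · exact Filter.Eventually.of_forall (fun l => by
        have := am_pos l
        simp only [Set.mem_Ioi]; positivity)
  exact h.inv_tendsto_nhdsGT_zero

/-- the phase functions -/
noncomputable def th (q : ℕ) (x : ℝ) : ℝ := (1 + x) ^ (q + 1) / (q + 1)

theorem th_hasDerivAt (q : ℕ) (x : ℝ) : HasDerivAt (th q) ((1 + x) ^ q) x := by
  unfold th
  have h1 : HasDerivAt (fun y : ℝ => 1 + y) 1 x := by
    simpa using (hasDerivAt_id x).const_add (1 : ℝ)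
  have h2 := (h1.pow (q + 1)).div_const ((q : ℝ) + 1)
  have h3 : (q : ℝ) + 1 ≠ 0 := by positivity
  have h4 : ((q + 1 : ℕ) : ℝ) * (1 + x) ^ (q + 1 - 1) * 1 / ((q : ℝ) + 1) = (1 + x) ^ q := by
    push_cast
    rw [mul_one, mul_div_cancel_left₀ _ h3]
  rw [← h4]
  exact h2

theorem th_lip (q k : ℕ) (hq : q ≤ k) (x y : ℝ) (hx : x ∈ Set.Icc (0 : ℝ) 1)
    (hy : y ∈ Set.Icc (0 : ℝ) 1) : |th q x - th q y| ≤ 2 ^ k * |x - y| := by
  have h := (convex_Icc (0 : ℝ) 1).norm_image_sub_le_of_norm_hasDerivWithin_le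
    (f := th q) (f' := fun x => (1 + x) ^ q) (C := 2 ^ k)
    (fun x _ => (th_hasDerivAt q x).hasDerivWithinAt) (by
      intro x hx
      rw [Real.norm_eq_abs, abs_pow]
      have h1 : |1 + x| ≤ 2 := by
        rw [abs_le]; constructor <;> linarith [hx.1, hx.2]
      calc |1 + x| ^ q ≤ 2 ^ q := pow_le_pow_left₀ (abs_nonneg _) h1 q
        _ ≤ 2 ^ k := pow_le_pow_right₀ (by norm_num) hq) hy hx
  simpa [Real.norm_eq_abs] using h

/-- the waves -/
noncomputable def wv (k l : ℕ) (x : ℝ) : ℝ := Real.sin (fr l * th (l % (k + 1)) x)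

theorem wv_le (k l : ℕ) (x y : ℝ) : |wv k l x - wv k l y| ≤ 2 := by
  unfold wv
  have h1 := Real.abs_sin_le_one (fr l * th (l % (k + 1)) x)
  have h2 := Real.abs_sin_le_one (fr l * th (l % (k + 1)) y)
  have := abs_sub (Real.sin (fr l * th (l % (k + 1)) x)) (Real.sin (fr l * th (l % (k + 1)) y))
  linarith

theorem wv_lip (k l : ℕ) (x y : ℝ) (hx : x ∈ Set.Icc (0 : ℝ) 1)
    (hy : y ∈ Set.Icc (0 : ℝ) 1) : |wv k l x - wv k l y| ≤ fr l * (2 ^ k * |x - y|) := by
  unfold wv
  refine (Real.abs_sin_sub_sin_le _ _).trans ?_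
  rw [← mul_sub, abs_mul, abs_of_pos (fr_pos l)]
  apply mul_le_mul_of_nonneg_left _ (fr_pos l).le
  exact th_lip _ k (Nat.lt_succ_iff.1 (Nat.mod_lt _ (Nat.succ_pos k))) x y hx hy

/-- the series -/
noncomputable def FF (k : ℕ) (x : ℝ) : ℝ := ∑' l, am l * wv k l x

theorem summable_FF (k : ℕ) (x : ℝ) : Summable (fun l => am l * wv k l x) := by
  apply Summable.of_norm_bounded summable_am
  intro l
  rw [Real.norm_eq_abs, abs_mul, abs_of_pos (am_pos l)]
  have h1 := Real.abs_sin_le_one (fr l * th (l % (k + 1)) x)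
  have h2 := am_pos l
  unfold wv
  nlinarith

theorem summable_d (k : ℕ) (x y : ℝ) : Summable (fun l => am l * (wv k l x - wv k l y)) := by
  simp only [mul_sub]
  exact (summable_FF k x).sub (summable_FF k y)

theorem FF_sub (k : ℕ) (x y : ℝ) : FF k x - FF k y = ∑' l, am l * (wv k l x - wv k l y) := by
  unfold FF
  simp only [mul_sub]
  exact ((summable_FF k x).tsum_sub (summable_FF k y)).symm

theorem tail_bound (k J : ℕ) (x y : ℝ) :
    |∑' l, am (l + J) * (wv k (l + J) x - wv k (l + J) y)| ≤ 4 * am J := by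
  have h1 : Summable (fun l => 2 * am (l + J)) :=
    ((summable_nat_add_iff J).2 summable_am).mul_left 2
  have h2 : ∀ l, ‖am (l + J) * (wv k (l + J) x - wv k (l + J) y)‖ ≤ 2 * am (l + J) := by
    intro l
    rw [Real.norm_eq_abs, abs_mul, abs_of_pos (am_pos _)]
    have h3 := wv_le k (l + J) x y
    have h4 := am_pos (l + J)
    nlinarith
  have h3 := tsum_of_norm_bounded h1.hasSum h2
  rw [Real.norm_eq_abs, tsum_mul_left] at h3
  have h4 := tsum_am_tail J
  linarith

theorem head_bound (k J : ℕ) (x y : ℝ) (hx : x ∈ Set.Icc (0 : ℝ) 1)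
    (hy : y ∈ Set.Icc (0 : ℝ) 1) :
    |∑ l ∈ Finset.range J, am l * (wv k l x - wv k l y)| ≤
      2 ^ k * |x - y| * ∑ l ∈ Finset.range J, (am l)⁻¹ := by
  refine (Finset.abs_sum_le_sum_abs _ _).trans ?_
  rw [Finset.mul_sum]
  apply Finset.sum_le_sum
  intro l _
  rw [abs_mul, abs_of_pos (am_pos l)]
  have h1 := wv_lip k l x y hx hy
  calc am l * |wv k l x - wv k l y| ≤ am l * (fr l * (2 ^ k * |x - y|)) :=
        mul_le_mul_of_nonneg_left h1 (am_pos l).le
    _ = (am l * fr l) * (2 ^ k * |x - y|) := by ring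
    _ = 2 ^ k * |x - y| * (am l)⁻¹ := by rw [am_mul_fr]; ring

theorem key (k j : ℕ) (x y : ℝ) (hx : x ∈ Set.Icc (0 : ℝ) 1) (hy : y ∈ Set.Icc (0 : ℝ) 1) :
    |FF k x - FF k y - am (j + 1) * (wv k (j + 1) x - wv k (j + 1) y)| ≤
      2 ^ k * |x - y| * (2 * (am j)⁻¹) + 4 * am (j + 2) := by
  rw [FF_sub, ← (summable_d k x y).sum_add_tsum_nat_add (j + 2), Finset.sum_range_succ]
  have h1 := tail_bound k (j + 2) x y
  have h2 := head_bound k (j + 1) x y hx hy
  have h3 := sum_inv_am' j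
  have h4 : 2 ^ k * |x - y| * ∑ l ∈ Finset.range (j + 1), (am l)⁻¹ ≤
      2 ^ k * |x - y| * (2 * (am j)⁻¹) := mul_le_mul_of_nonneg_left h3 (by positivity)
  have h5 : ∀ p q r : ℝ, p + q + r - q = p + r := by intros; ring
  rw [h5]
  exact (abs_add_le _ _).trans (add_le_add (h2.trans h4) h1)

theorem split (k J : ℕ) (x y : ℝ) (hx : x ∈ Set.Icc (0 : ℝ) 1) (hy : y ∈ Set.Icc (0 : ℝ) 1) :
    |FF k x - FF k y| ≤ 2 ^ k * |x - y| * (∑ l ∈ Finset.range J, (am l)⁻¹) + 4 * am J := by
  rw [FF_sub, ← (summable_d k x y).sum_add_tsum_nat_add J]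
  exact (abs_add_le _ _).trans (add_le_add (head_bound k J x y hx hy) (tail_bound k J x y))

theorem holder (k : ℕ) (x y : ℝ) (hx : x ∈ Set.Icc (0 : ℝ) 1) (hy : y ∈ Set.Icc (0 : ℝ) 1) :
    |FF k x - FF k y| ≤ (2 * 2 ^ k + 4) * Real.sqrt |x - y| := by
  rcases eq_or_ne x y with rfl | hne
  · simp
  have hh : 0 < |x - y| := abs_pos.2 (sub_ne_zero.2 hne)
  have hh1 : |x - y| ≤ 1 := by
    rw [abs_le]; constructor <;> linarith [hx.1, hx.2, hy.1, hy.2]
  set t := Real.sqrt |x - y| with ht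
  have ht0 : 0 < t := Real.sqrt_pos.2 hh
  have ht1 : t ≤ 1 := by rw [ht]; exact Real.sqrt_le_one.2 hh1
  have htt : |x - y| = t * t := (Real.mul_self_sqrt hh.le).symm
  have hex : ∃ l, am l < t := by
    have := (am_tendsto.eventually (gt_mem_nhds ht0)).exists
    exact this
  classical
  obtain ⟨hJ1, hJ2⟩ : am (Nat.find hex) < t ∧ ∀ l < Nat.find hex, ¬ am l < t :=
    ⟨Nat.find_spec hex, fun l hl => Nat.find_min hex hl⟩
  generalize Nat.find hex = J at hJ1 hJ2
  have hJ0 : J ≠ 0 := by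
    rintro rfl
    rw [am_zero] at hJ1
    linarith
  obtain ⟨J', rfl⟩ := Nat.exists_eq_succ_of_ne_zero hJ0
  have h1 := split k (J' + 1) x y hx hy
  have h2 : t ≤ am J' := not_lt.1 (hJ2 J' (Nat.lt_succ_self _))
  have h3 := sum_inv_am' J'
  have h4 : (am J')⁻¹ ≤ t⁻¹ := inv_anti₀ ht0 h2
  have h5 : 2 ^ k * |x - y| * (∑ l ∈ Finset.range (J' + 1), (am l)⁻¹) ≤
      2 ^ k * |x - y| * (2 * t⁻¹) := mul_le_mul_of_nonneg_left (by linarith) (by positivity)
  have h6 : 2 ^ k * |x - y| * (2 * t⁻¹) = 2 * 2 ^ k * t := by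
    rw [htt]
    field_simp
  have h7 : am (J' + 1) < t := hJ1
  nlinarith

/-- the function -/
noncomputable def ff (k : ℕ) (x : ℝ) : ℝ := FF k x - FF k 0 - (FF k 1 - FF k 0) * x

theorem ff_sub (k : ℕ) (x y : ℝ) :
    ff k x - ff k y = (FF k x - FF k y) - (FF k 1 - FF k 0) * (x - y) := by
  unfold ff; ring

theorem ff_holder (k : ℕ) (x y : ℝ) (hx : x ∈ Set.Icc (0 : ℝ) 1) (hy : y ∈ Set.Icc (0 : ℝ) 1) :
    |ff k x - ff k y| ≤ (2 * 2 ^ k + 4 + |FF k 1 - FF k 0|) * Real.sqrt |x - y| := by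
  rw [ff_sub]
  have h1 := holder k x y hx hy
  have hh1 : |x - y| ≤ 1 := by
    rw [abs_le]; constructor <;> linarith [hx.1, hx.2, hy.1, hy.2]
  have h2 : |x - y| ≤ Real.sqrt |x - y| := by
    have h3 : Real.sqrt |x - y| ≤ 1 := Real.sqrt_le_one.2 hh1
    have h4 : Real.sqrt |x - y| * Real.sqrt |x - y| = |x - y| := Real.mul_self_sqrt (abs_nonneg _)
    have h5 := Real.sqrt_nonneg |x - y|
    nlinarith
  have h3 : |(FF k 1 - FF k 0) * (x - y)| ≤ |FF k 1 - FF k 0| * Real.sqrt |x - y| := by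
    rw [abs_mul]
    exact mul_le_mul_of_nonneg_left h2 (abs_nonneg _)
  have h4 := abs_sub (FF k x - FF k y) ((FF k 1 - FF k 0) * (x - y))
  linarith

/-- no relation between a sine wave and sine waves of other frequencies -/
theorem trig_indep {ι : Type} [DecidableEq ι] (I : Finset ι) (i0 : ι) (hi0 : i0 ∉ I) :
    ∀ (A P W : ι → ℝ), A i0 ≠ 0 → W i0 ≠ 0 → (∀ i ∈ I, |W i| ≠ |W i0|) →
      (∀ x : ℝ, A i0 * Real.sin (P i0 + W i0 * x) + ∑ i ∈ I, A i * Real.sin (P i + W i * x) = 0) →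
      False := by
  induction I using Finset.induction_on with
  | empty =>
    intro A P W hA hW _ h
    have h1 := h ((Real.pi / 2 - P i0) / W i0)
    rw [mul_div_cancel₀ _ hW] at h1
    simp at h1
    exact hA h1
  | insert j I hj ih =>
    intro A P W hA hW hne h
    have hi0' : i0 ∉ I := fun h' => hi0 (Finset.mem_insert_of_mem h')
    have hjW := hne j (Finset.mem_insert_self _ _)
    -- a step at which the cosines differ
    obtain ⟨δ, hδ⟩ : ∃ δ : ℝ, Real.cos (W i0 * δ) ≠ Real.cos (W j * δ) := by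
      refine ⟨1 / (|W i0| + |W j| + 1), fun heq => hjW ?_⟩
      set D := |W i0| + |W j| + 1 with hD
      have hD0 : 0 < D := by positivity
      have e : ∀ w : ℝ, Real.cos (w * (1 / D)) = Real.cos (|w| * (1 / D)) := by
        intro w
        rcases abs_cases w with h' | h' <;> rw [h'.1]
        rw [neg_mul, Real.cos_neg]
      rw [e (W i0), e (W j)] at heq
      have hm : ∀ w : ℝ, |w| ≤ D → |w| * (1 / D) ∈ Set.Icc (0 : ℝ) Real.pi := by
        intro w hw
        constructor
        · positivity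
        · have : |w| * (1 / D) ≤ 1 := by
            rw [mul_one_div, div_le_one hD0]; exact hw
          linarith [Real.pi_gt_three]
      have h1 := Real.injOn_cos (hm (W i0) (by rw [hD]; linarith [abs_nonneg (W j)]))
        (hm (W j) (by rw [hD]; linarith [abs_nonneg (W i0)])) heq
      have h2 : (1 / D) ≠ 0 := by positivity
      exact (mul_right_cancel₀ h2 h1).symm
    have hsum : ∀ (p w x : ℝ), Real.sin (p + w * (x + δ)) + Real.sin (p + w * (x - δ)) =
        2 * Real.cos (w * δ) * Real.sin (p + w * x) := by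
      intro p w x
      have e1 : p + w * (x + δ) = (p + w * x) + w * δ := by ring
      have e2 : p + w * (x - δ) = (p + w * x) - w * δ := by ring
      rw [e1, e2, Real.sin_add, Real.sin_sub]
      ring
    refine ih hi0' (fun i => A i * (2 * (Real.cos (W i * δ) - Real.cos (W j * δ)))) P W ?_ hW
      (fun i hi => hne i (Finset.mem_insert_of_mem hi)) ?_
    · exact mul_ne_zero hA (mul_ne_zero two_ne_zero (sub_ne_zero.2 hδ))
    · intro x
      have h1 := h (x + δ)
      have h2 := h (x - δ)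
      have h3 := h x
      rw [Finset.sum_insert hj] at h1 h2 h3
      have h4 : ∑ i ∈ I, A i * (2 * (Real.cos (W i * δ) - Real.cos (W j * δ))) *
          Real.sin (P i + W i * x) =
          ∑ i ∈ I, A i * Real.sin (P i + W i * (x + δ)) +
          ∑ i ∈ I, A i * Real.sin (P i + W i * (x - δ)) -
          2 * Real.cos (W j * δ) * ∑ i ∈ I, A i * Real.sin (P i + W i * x) := by
        rw [Finset.mul_sum, ← Finset.sum_add_distrib, ← Finset.sum_sub_distrib]
        apply Finset.sum_congr rfl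
        intro i _
        have := hsum (P i) (W i) x
        linear_combination (-A i) * this
      rw [h4]
      have h5 := hsum (P i0) (W i0) x
      have h6 := hsum (P j) (W j) x
      linear_combination h1 + h2 - 2 * Real.cos (W j * δ) * h3 - A i0 * h5 - A j * h6

/-- a good phase function -/
theorem good_phase (k n : ℕ) (hn : n ≤ k) (z c : Fin n → ℝ) (hz : ∀ i, z i ∈ Set.Icc (0 : ℝ) 1)
    (hinj : ∀ i j, i ≠ j → z i ≠ z j) (i0 : Fin n) (hc : c i0 ≠ 0) :
    ∃ q < k + 1, ∀ i, i ≠ i0 → |c i * (1 + z i) ^ q| ≠ |c i0 * (1 + z i0) ^ q| := by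
  by_contra hcon
  push Not at hcon
  have hpos : ∀ i, 0 < 1 + z i := fun i => by linarith [(hz i).1]
  choose g hg1 hg2 using fun q : Fin (k + 1) => hcon q.1 q.2
  obtain ⟨p, q, hpq, hgpq⟩ := Fintype.exists_ne_map_eq_of_card_lt g (by simp; omega)
  have main : ∀ p q : Fin (k + 1), p.1 < q.1 → g p = g q → False := by
    intro p q hlt hgpq
    have h1 := hg2 p
    have h2 := hg2 q
    rw [← hgpq] at h2
    have hi := hg1 p
    set i := g p with hidef
    have e : ∀ (j : Fin n) (m : ℕ), |c j * (1 + z j) ^ m| = |c j| * (1 + z j) ^ m := by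
      intro j m
      rw [abs_mul, abs_of_pos (pow_pos (hpos j) m)]
    rw [e, e] at h1 h2
    have hc0 : 0 < |c i0| := abs_pos.2 hc
    obtain ⟨m, hm⟩ : ∃ m, q.1 = p.1 + (m + 1) := ⟨q.1 - p.1 - 1, by omega⟩
    rw [hm, pow_add (1 + z i), pow_add (1 + z i0), ← mul_assoc, ← mul_assoc, h1] at h2
    have h3 : 0 < |c i0| * (1 + z i0) ^ p.1 := by
      have := hpos i0
      positivity
    have h4 := mul_left_cancel₀ h3.ne' h2
    have h5 := (pow_left_inj₀ (hpos i).le (hpos i0).le (Nat.succ_ne_zero m)).1 h4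
    exact hinj i i0 hi (by linarith)
  rcases lt_trichotomy p.1 q.1 with h | h | h
  · exact main p q h hgpq
  · exact hpq (Fin.ext h)
  · exact main q p h hgpq.symm

/-- the error bound -/
noncomputable def Rb (k : ℕ) (X : ℝ) (j : ℕ) : ℝ :=
  2 ^ k * X * 2 * ((1 / 2) * (1 / 4) ^ j) + 4 * ((1 / 2) * (1 / 4) ^ (j + 1)) +
    |FF k 1 - FF k 0| * X * am (j + 1)

theorem Rb_tendsto (k : ℕ) (X : ℝ) : Tendsto (Rb k X) atTop (𝓝 0) := by
  have h1 : Tendsto (fun j : ℕ => (1 / 4 : ℝ) ^ j) atTop (𝓝 0) :=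
    tendsto_pow_atTop_nhds_zero_of_lt_one (by norm_num) (by norm_num)
  have h2 : Tendsto (fun j : ℕ => (1 / 4 : ℝ) ^ (j + 1)) atTop (𝓝 0) :=
    h1.comp (tendsto_add_atTop_nat 1)
  have h3 : Tendsto (fun j : ℕ => am (j + 1)) atTop (𝓝 0) :=
    am_tendsto.comp (tendsto_add_atTop_nat 1)
  have h := (((h1.const_mul (1 / 2)).const_mul (2 ^ k * X * 2)).add
    ((h2.const_mul (1 / 2)).const_mul 4)).add (h3.const_mul (|FF k 1 - FF k 0| * X))
  have e : (2 : ℝ) ^ k * X * 2 * (1 / 2 * 0) + 4 * (1 / 2 * 0) + |FF k 1 - FF k 0| * X * 0 = 0 := by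
    ring
  rw [e] at h
  exact h

theorem err (k j : ℕ) (x y X : ℝ) (hx : x ∈ Set.Icc (0 : ℝ) 1) (hy : y ∈ Set.Icc (0 : ℝ) 1)
    (h : |x - y| ≤ X * am (j + 1) ^ 2) :
    |(wv k (j + 1) x - wv k (j + 1) y) - (ff k x - ff k y) / am (j + 1)| ≤ Rb k X j := by
  have hk := key k j x y hx hy
  have hp := am_pos (j + 1)
  have hp' := am_pos j
  rw [ff_sub]
  have e1 : (wv k (j + 1) x - wv k (j + 1) y) -
      (FF k x - FF k y - (FF k 1 - FF k 0) * (x - y)) / am (j + 1) =
      (-(FF k x - FF k y - am (j + 1) * (wv k (j + 1) x - wv k (j + 1) y)) +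
        (FF k 1 - FF k 0) * (x - y)) / am (j + 1) := by
    field_simp
    ring
  rw [e1, abs_div, abs_of_pos hp, div_le_iff₀ hp]
  refine (abs_add_le _ _).trans ?_
  rw [abs_neg, abs_mul]
  have h1 : |FF k 1 - FF k 0| * |x - y| ≤ |FF k 1 - FF k 0| * (X * am (j + 1) ^ 2) :=
    mul_le_mul_of_nonneg_left h (abs_nonneg _)
  have h2 : 2 ^ k * |x - y| * (2 * (am j)⁻¹) ≤ 2 ^ k * (X * am (j + 1) ^ 2) * (2 * (am j)⁻¹) := by
    apply mul_le_mul_of_nonneg_right _ (by positivity)
    exact mul_le_mul_of_nonneg_left h (by positivity)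
  have h3 : am (j + 1) * (am j)⁻¹ = (1 / 2) * (1 / 4) ^ j := by
    rw [am_succ]
    field_simp
  have h4 : am (j + 2) = am (j + 1) * ((1 / 2) * (1 / 4) ^ (j + 1)) := am_succ (j + 1)
  have h5 : 2 ^ k * (X * am (j + 1) ^ 2) * (2 * (am j)⁻¹) =
      2 ^ k * X * 2 * (am (j + 1) * (am j)⁻¹) * am (j + 1) := by ring
  rw [h5, h3] at h2
  unfold Rb
  rw [h4] at hk
  nlinarith

theorem am_sq (l : ℕ) : am l ^ 2 = (fr l)⁻¹ := by
  unfold fr; rw [inv_inv]

theorem no_motion (k n : ℕ) (hn : n ≤ k) (ε w : Fin n → ℝ) (z : Fin n → ℝ → ℝ) (a b : ℝ)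
    (hab : a < b) (hε : ∀ i, ε i = 1 ∨ ε i = -1)
    (hz : ∀ i, ∀ s ∈ Set.Icc a b, z i s ∈ Set.Icc (0 : ℝ) 1)
    (hlip : ∀ i, ∀ s ∈ Set.Icc a b, ∀ t ∈ Set.Icc a b, |z i s - z i t| ≤ |s - t|)
    (hinj : ∀ i j, i ≠ j → ∀ s ∈ Set.Icc a b, z i s ≠ z j s)
    (hw : ∀ s ∈ Set.Icc a b, ∑ i, w i * z i s = s - 1)
    (hf : ∀ s ∈ Set.Icc a b, ∑ i, ε i * ff k (z i s) = 0) : False := by
  classical
  -- a point of differentiability
  have hL : ∀ i, LipschitzOnWith 1 (z i) (Set.Icc a b) := by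
    intro i
    apply LipschitzOnWith.of_dist_le_mul
    intro x hx y hy
    rw [Real.dist_eq, Real.dist_eq, NNReal.coe_one, one_mul]
    exact hlip i x hx y hy
  have hae : ∀ᵐ x : ℝ, ∀ i, x ∈ Set.Icc a b → DifferentiableWithinAt ℝ (z i) (Set.Icc a b) x :=
    MeasureTheory.ae_all_iff.2 (fun i => (hL i).ae_differentiableWithinAt_of_mem_real)
  obtain ⟨s, hs1, hs2⟩ := (MeasureTheory.Measure.dense_of_ae hae).inter_open_nonempty
    (Set.Ioo a b) isOpen_Ioo (Set.nonempty_Ioo.2 hab)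
  have hsI : s ∈ Set.Icc a b := Set.Ioo_subset_Icc_self hs1
  have hnb : Set.Icc a b ∈ 𝓝 s := Icc_mem_nhds hs1.1 hs1.2
  have hdiff : ∀ i, DifferentiableAt ℝ (z i) s := fun i => (hs2 i hsI).differentiableAt hnb
  set c : Fin n → ℝ := fun i => deriv (z i) s with hcdef
  have hd : ∀ i, HasDerivAt (z i) (c i) s := fun i => (hdiff i).hasDerivAt
  -- some point moves
  have hwc : ∑ i, w i * c i = 1 := by
    have h1 : HasDerivAt (fun x => ∑ i, w i * z i x) (∑ i, w i * c i) s :=
      HasDerivAt.fun_sum (fun i _ => (hd i).const_mul (w i))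
    have h2 : HasDerivAt (fun x : ℝ => x - 1) 1 s := (hasDerivAt_id s).sub_const 1
    have h3 : (fun x => ∑ i, w i * z i x) =ᶠ[𝓝 s] (fun x : ℝ => x - 1) := by
      filter_upwards [hnb] with x hx
      exact hw x hx
    exact (h1.congr_of_eventuallyEq h3.symm).unique h2
  obtain ⟨i0, hi0⟩ : ∃ i0, c i0 ≠ 0 := by
    by_contra hcon
    push Not at hcon
    rw [Finset.sum_eq_zero (fun i _ => by rw [hcon i, mul_zero])] at hwc
    exact zero_ne_one hwc
  obtain ⟨q, hq, hgood⟩ := good_phase k n hn (fun i => z i s) c (fun i => hz i s hsI)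
    (fun i j hij => hinj i j hij s hsI) i0 hi0
  set W : Fin n → ℝ := fun i => c i * (1 + z i s) ^ q with hW
  -- the scales
  let js : ℕ → ℕ := fun m => (k + 1) * m + q
  have hjs : ∀ m, (js m + (k + 1)) % (k + 1) = q := by
    intro m
    have : js m + (k + 1) = q + (k + 1) * (m + 1) := by simp only [js]; ring
    rw [this, Nat.add_mul_mod_self_left, Nat.mod_eq_of_lt hq]
  have hjt : Tendsto js atTop atTop := by
    apply tendsto_atTop_mono (f := fun m => m) _ tendsto_id
    intro m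
    simp only [js]
    nlinarith
  -- index j with j + 1 = js m + (k+1)
  let jj : ℕ → ℕ := fun m => js m + k
  have hjj : ∀ m, (jj m + 1) % (k + 1) = q := fun m => hjs m
  have hjjt : Tendsto jj atTop atTop :=
    tendsto_atTop_mono (fun m => Nat.le_add_right (js m) k) hjt
  let N : ℕ → ℝ := fun m => fr (jj m + 1)
  have hN0 : ∀ m, 0 < N m := fun m => fr_pos _
  have hNt : Tendsto N atTop atTop := fr_tendsto.comp ((tendsto_add_atTop_nat 1).comp hjjt)
  have hwv : ∀ m x, wv k (jj m + 1) x = Real.sin (N m * th q x) := by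
    intro m x
    unfold wv
    rw [hjj]
  -- phases mod 2 pi
  let Φ : ℕ → Fin n → ℝ := fun m i => N m * th q (z i s)
  let u : ℕ → Fin n → ℝ := fun m i => 2 * Real.pi * Int.fract (Φ m i / (2 * Real.pi))
  have hu : ∀ m i, ∀ y : ℝ, Real.sin (Φ m i + y) = Real.sin (u m i + y) := by
    intro m i y
    have hpi : (2 * Real.pi) ≠ 0 := by positivity
    have e : Φ m i = u m i + ⌊Φ m i / (2 * Real.pi)⌋ * (2 * Real.pi) := by
      have := Int.fract_add_floor (Φ m i / (2 * Real.pi))
      simp only [u]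
      calc Φ m i = (2 * Real.pi) * (Φ m i / (2 * Real.pi)) := by field_simp
        _ = (2 * Real.pi) * (Int.fract (Φ m i / (2 * Real.pi)) +
            ⌊Φ m i / (2 * Real.pi)⌋) := by rw [this]
        _ = _ := by ring
    rw [e]
    have e2 : u m i + ⌊Φ m i / (2 * Real.pi)⌋ * (2 * Real.pi) + y =
        (u m i + y) + ⌊Φ m i / (2 * Real.pi)⌋ * (2 * Real.pi) := by ring
    rw [e2, Real.sin_add_int_mul_two_pi]
  have hcpt : IsCompact (Set.pi Set.univ (fun _ : Fin n => Set.Icc (0 : ℝ) (2 * Real.pi))) :=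
    isCompact_univ_pi (fun _ => isCompact_Icc)
  obtain ⟨v, _, φ, hφ, hv⟩ := hcpt.tendsto_subseq (x := u) (by
    intro m i _
    have h1 := Int.fract_nonneg (Φ m i / (2 * Real.pi))
    have h2 := (Int.fract_lt_one (Φ m i / (2 * Real.pi))).le
    have h3 := Real.pi_pos
    constructor
    · simp only [u]; positivity
    · simp only [u]; nlinarith)
  -- the increments of the phases
  let δ : ℝ → ℕ → Fin n → ℝ := fun x m i => N m * (th q (z i (s + x / N m)) - th q (z i s))
  have hδ : ∀ x i, Tendsto (fun m => δ x m i) atTop (𝓝 (W i * x)) := by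
    intro x i
    rcases eq_or_ne x 0 with rfl | hx
    · simp [δ]
    have h1 : HasDerivAt (fun t => th q (z i t)) ((1 + z i s) ^ q * c i) s :=
      (th_hasDerivAt q (z i s)).comp s (hd i)
    have h2 := h1.tendsto_slope_zero
    have h3 : Tendsto (fun m => x / N m) atTop (𝓝[≠] 0) := by
      rw [tendsto_nhdsWithin_iff]
      refine ⟨hNt.const_div_atTop x, Filter.Eventually.of_forall (fun m => ?_)⟩
      exact div_ne_zero hx (hN0 m).ne'
    have h4 := (h2.comp h3).const_mul x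
    have e : W i * x = x * ((1 + z i s) ^ q * c i) := by simp only [hW]; ring
    rw [e]
    refine h4.congr (fun m => ?_)
    simp only [Function.comp, δ, smul_eq_mul]
    have := (hN0 m).ne'
    field_simp
  -- the sums tend to zero
  have hT : ∀ x : ℝ, Tendsto (fun m => ∑ i, ε i * (Real.sin (Φ m i + δ x m i) -
      Real.sin (Φ m i))) atTop (𝓝 0) := by
    intro x
    have hR : Tendsto (fun m => (n : ℝ) * Rb k |x| (jj m)) atTop (𝓝 0) := by
      have := ((Rb_tendsto k |x|).comp hjjt).const_mul (n : ℝ)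
      simpa using this
    have hev : ∀ᶠ m in atTop, s + x / N m ∈ Set.Icc a b := by
      have h1 : Tendsto (fun m => s + x / N m) atTop (𝓝 s) := by
        have := (hNt.const_div_atTop x).const_add s
        simpa using this
      exact h1.eventually hnb
    apply squeeze_zero_norm' _ hR
    filter_upwards [hev] with m hm
    have hsin : ∀ i, Real.sin (Φ m i + δ x m i) - Real.sin (Φ m i) =
        wv k (jj m + 1) (z i (s + x / N m)) - wv k (jj m + 1) (z i s) := by
      intro i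
      rw [hwv, hwv]
      congr 2
      simp only [Φ, δ]; ring
    have h0 : ∑ i, ε i * (ff k (z i (s + x / N m)) - ff k (z i s)) = 0 := by
      simp only [mul_sub, Finset.sum_sub_distrib]
      rw [hf _ hm, hf _ hsI, sub_zero]
    have h1 : ∑ i, ε i * (Real.sin (Φ m i + δ x m i) - Real.sin (Φ m i)) =
        ∑ i, ε i * ((wv k (jj m + 1) (z i (s + x / N m)) - wv k (jj m + 1) (z i s)) -
          (ff k (z i (s + x / N m)) - ff k (z i s)) / am (jj m + 1)) := by
      have h2 : ∑ i, ε i * ((wv k (jj m + 1) (z i (s + x / N m)) - wv k (jj m + 1) (z i s)) -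
          (ff k (z i (s + x / N m)) - ff k (z i s)) / am (jj m + 1)) =
          ∑ i, ε i * (wv k (jj m + 1) (z i (s + x / N m)) - wv k (jj m + 1) (z i s)) -
          (∑ i, ε i * (ff k (z i (s + x / N m)) - ff k (z i s))) / am (jj m + 1) := by
        rw [Finset.sum_div, ← Finset.sum_sub_distrib]
        apply Finset.sum_congr rfl
        intro i _
        ring
      rw [h2, h0, zero_div, sub_zero]
      apply Finset.sum_congr rfl
      intro i _
      rw [hsin]
    rw [h1, Real.norm_eq_abs]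
    refine (Finset.abs_sum_le_sum_abs _ _).trans ?_
    have h3 : ∀ i ∈ Finset.univ, |ε i * ((wv k (jj m + 1) (z i (s + x / N m)) -
        wv k (jj m + 1) (z i s)) - (ff k (z i (s + x / N m)) - ff k (z i s)) /
          am (jj m + 1))| ≤ Rb k |x| (jj m) := by
      intro i _
      rw [abs_mul]
      have h4 : |ε i| = 1 := by
        rcases hε i with h | h <;> rw [h] <;> simp
      rw [h4, one_mul]
      apply err
      · exact hz i _ hm
      · exact hz i _ hsI
      · refine (hlip i _ hm _ hsI).trans ?_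
        rw [am_sq, add_sub_cancel_left, abs_div, abs_of_pos (hN0 m)]
        exact le_of_eq (div_eq_mul_inv _ _)
    refine (Finset.sum_le_card_nsmul _ _ _ h3).trans ?_
    simp
  -- the limit relation
  have hlim : ∀ x : ℝ, ∑ i, ε i * (Real.sin (v i + W i * x) - Real.sin (v i)) = 0 := by
    intro x
    have h1 : Tendsto (fun m => ∑ i, ε i * (Real.sin (Φ (φ m) i + δ x (φ m) i) -
        Real.sin (Φ (φ m) i))) atTop (𝓝 0) := (hT x).comp hφ.tendsto_atTop
    have h2 : Tendsto (fun m => ∑ i, ε i * (Real.sin (Φ (φ m) i + δ x (φ m) i) -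
        Real.sin (Φ (φ m) i))) atTop
        (𝓝 (∑ i, ε i * (Real.sin (v i + W i * x) - Real.sin (v i)))) := by
      apply tendsto_finsetSum
      intro i _
      have hvi : Tendsto (fun m => u (φ m) i) atTop (𝓝 (v i)) :=
        (tendsto_pi_nhds.1 hv) i
      have h3 : Tendsto (fun m => u (φ m) i + δ x (φ m) i) atTop (𝓝 (v i + W i * x)) :=
        hvi.add ((hδ x i).comp hφ.tendsto_atTop)
      have h4 := (Real.continuous_sin.tendsto _).comp h3
      have h5 := (Real.continuous_sin.tendsto _).comp hvi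
      refine ((h4.sub h5).const_mul (ε i)).congr (fun m => ?_)
      simp only [Function.comp]
      rw [hu (φ m) i (δ x (φ m) i)]
      have := hu (φ m) i 0
      rw [add_zero, add_zero] at this
      rw [this]
    exact tendsto_nhds_unique h2 h1
  -- conclusion
  have hWi0 : W i0 ≠ 0 := by
    have h1 : 0 < 1 + z i0 s := by linarith [(hz i0 s hsI).1]
    exact mul_ne_zero hi0 (pow_pos h1 q).ne'
  -- use `Option (Fin n)`: the extra index carries the constant
  let C : ℝ := ∑ i, ε i * Real.sin (v i)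
  refine trig_indep (insert none ((Finset.univ.erase i0).image some) : Finset (Option (Fin n)))
    (some i0) (by simp) (fun o => o.elim (-C) ε) (fun o => o.elim (Real.pi / 2) v)
    (fun o => o.elim 0 W) ?_ hWi0 ?_ ?_
  · simp only [Option.elim]
    rcases hε i0 with h | h <;> rw [h] <;> norm_num
  · intro o ho
    rcases o with _ | i
    · simp only [Option.elim, abs_zero]
      exact (abs_pos.2 hWi0).ne
    · simp only [Finset.mem_insert, reduceCtorEq, Finset.mem_image, Finset.mem_erase,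
        Finset.mem_univ, and_true, Option.some.injEq, exists_eq_right, false_or] at ho
      exact hgood i ho
  · intro x
    rw [Finset.sum_insert (by simp), Finset.sum_image (by intro x _ y _ h; exact Option.some.inj h)]
    simp only [Option.elim]
    have h1 := hlim x
    rw [← Finset.add_sum_erase _ _ (Finset.mem_univ i0)] at h1
    simp only [mul_sub, Finset.sum_sub_distrib] at h1
    have hC : C = ε i0 * Real.sin (v i0) + ∑ i ∈ Finset.univ.erase i0, ε i * Real.sin (v i) := by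
      simp only [C]
      rw [← Finset.add_sum_erase _ _ (Finset.mem_univ i0)]
    rw [zero_mul, add_zero, Real.sin_pi_div_two, hC]
    linear_combination h1

end RF642

theorem rough_function (k : ℕ) : ∃ (f : ℝ → ℝ) (A : ℝ), f 0 = 0 ∧ f 1 = 0 ∧
    (∀ x ∈ Set.Icc (0 : ℝ) 1, ∀ y ∈ Set.Icc (0 : ℝ) 1, |f x - f y| ≤ A * Real.sqrt |x - y|) ∧
    ∀ n ≤ k, ∀ (ε w : Fin n → ℝ) (z : Fin n → ℝ → ℝ) (a b : ℝ), a < b →
      (∀ i, ε i = 1 ∨ ε i = -1) →
      (∀ i, ∀ s ∈ Set.Icc a b, z i s ∈ Set.Icc (0 : ℝ) 1) →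
      (∀ i, ∀ s ∈ Set.Icc a b, ∀ t ∈ Set.Icc a b, |z i s - z i t| ≤ |s - t|) →
      (∀ i j, i ≠ j → ∀ s ∈ Set.Icc a b, z i s ≠ z j s) →
      (∀ s ∈ Set.Icc a b, ∑ i, w i * z i s = s - 1) →
      (∀ s ∈ Set.Icc a b, ∑ i, ε i * f (z i s) = 0) → False := by
  refine ⟨RF642.ff k, _, ?_, ?_, fun x hx y hy => RF642.ff_holder k x y hx hy, ?_⟩
  · unfold RF642.ff; ring
  · unfold RF642.ff; ring
  · intro n hn ε w z a b hab h1 h2 h3 h4 h5 h6
    exact RF642.no_motion k n hn ε w z a b hab h1 h2 h3 h4 h5 h6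

end Pool.Agent.TH719.ED
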