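import Mathlib

set_option autoImplicit false
set_option maxRecDepth 100000

namespace Pool.Agent.TH642

/-- Coset enumeration for `x² = y³ = (xy)⁵ = 1`. -/
theorem enum235 {G : Type*} [Group G] (x y : G) (hx : x * x = 1) (hy : y * y * y = 1)
    (h5 : ∀ w : G, w * x * y * x * y * x * y * x * y * x * y = w) :
    ∃ f : Fin 60 → G, (∃ i, f i = 1) ∧ ∀ i, (∃ j, f j = f i * x) ∧ (∃ j, f j = f i * y) := by
  obtain ⟨w0, hw0⟩ : ∃ w : G, w = 1 := ⟨_, rfl⟩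
  obtain ⟨w1, X0_1⟩ : ∃ w : G, w0 * x = w := ⟨_, rfl⟩
  obtain ⟨w2, Y0_2⟩ : ∃ w : G, w0 * y = w := ⟨_, rfl⟩
  obtain ⟨w3, Y1_3⟩ : ∃ w : G, w1 * y = w := ⟨_, rfl⟩
  obtain ⟨w4, X2_4⟩ : ∃ w : G, w2 * x = w := ⟨_, rfl⟩
  obtain ⟨w5, Y2_5⟩ : ∃ w : G, w2 * y = w := ⟨_, rfl⟩
  obtain ⟨w6, X3_6⟩ : ∃ w : G, w3 * x = w := ⟨_, rfl⟩
  obtain ⟨w7, Y3_7⟩ : ∃ w : G, w3 * y = w := ⟨_, rfl⟩
  obtain ⟨w8, Y4_8⟩ : ∃ w : G, w4 * y = w := ⟨_, rfl⟩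
  obtain ⟨w9, X5_9⟩ : ∃ w : G, w5 * x = w := ⟨_, rfl⟩
  obtain ⟨w10, Y6_10⟩ : ∃ w : G, w6 * y = w := ⟨_, rfl⟩
  obtain ⟨w11, X7_11⟩ : ∃ w : G, w7 * x = w := ⟨_, rfl⟩
  obtain ⟨w12, X8_12⟩ : ∃ w : G, w8 * x = w := ⟨_, rfl⟩
  obtain ⟨w13, Y8_13⟩ : ∃ w : G, w8 * y = w := ⟨_, rfl⟩
  obtain ⟨w14, Y9_14⟩ : ∃ w : G, w9 * y = w := ⟨_, rfl⟩
  obtain ⟨w15, X10_15⟩ : ∃ w : G, w10 * x = w := ⟨_, rfl⟩
  obtain ⟨w16, Y10_16⟩ : ∃ w : G, w10 * y = w := ⟨_, rfl⟩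
  obtain ⟨w17, Y11_17⟩ : ∃ w : G, w11 * y = w := ⟨_, rfl⟩
  obtain ⟨w18, Y12_18⟩ : ∃ w : G, w12 * y = w := ⟨_, rfl⟩
  obtain ⟨w19, X13_19⟩ : ∃ w : G, w13 * x = w := ⟨_, rfl⟩
  obtain ⟨w20, X14_20⟩ : ∃ w : G, w14 * x = w := ⟨_, rfl⟩
  obtain ⟨w21, Y14_21⟩ : ∃ w : G, w14 * y = w := ⟨_, rfl⟩
  obtain ⟨w22, Y15_22⟩ : ∃ w : G, w15 * y = w := ⟨_, rfl⟩
  obtain ⟨w23, X16_23⟩ : ∃ w : G, w16 * x = w := ⟨_, rfl⟩
  obtain ⟨w24, X17_24⟩ : ∃ w : G, w17 * x = w := ⟨_, rfl⟩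
  obtain ⟨w25, Y17_25⟩ : ∃ w : G, w17 * y = w := ⟨_, rfl⟩
  obtain ⟨w26, Y18_26⟩ : ∃ w : G, w18 * y = w := ⟨_, rfl⟩
  obtain ⟨w27, Y19_27⟩ : ∃ w : G, w19 * y = w := ⟨_, rfl⟩
  obtain ⟨w28, Y20_28⟩ : ∃ w : G, w20 * y = w := ⟨_, rfl⟩
  obtain ⟨w29, Y22_29⟩ : ∃ w : G, w22 * y = w := ⟨_, rfl⟩
  obtain ⟨w30, Y23_30⟩ : ∃ w : G, w23 * y = w := ⟨_, rfl⟩
  obtain ⟨w31, Y24_31⟩ : ∃ w : G, w24 * y = w := ⟨_, rfl⟩
  obtain ⟨w32, X26_32⟩ : ∃ w : G, w26 * x = w := ⟨_, rfl⟩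
  obtain ⟨w33, X27_33⟩ : ∃ w : G, w27 * x = w := ⟨_, rfl⟩
  obtain ⟨w34, Y27_34⟩ : ∃ w : G, w27 * y = w := ⟨_, rfl⟩
  obtain ⟨w35, Y28_35⟩ : ∃ w : G, w28 * y = w := ⟨_, rfl⟩
  obtain ⟨w36, X29_36⟩ : ∃ w : G, w29 * x = w := ⟨_, rfl⟩
  obtain ⟨w37, X30_37⟩ : ∃ w : G, w30 * x = w := ⟨_, rfl⟩
  obtain ⟨w38, Y30_38⟩ : ∃ w : G, w30 * y = w := ⟨_, rfl⟩
  obtain ⟨w39, Y31_39⟩ : ∃ w : G, w31 * y = w := ⟨_, rfl⟩
  obtain ⟨w40, Y32_40⟩ : ∃ w : G, w32 * y = w := ⟨_, rfl⟩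
  obtain ⟨w41, Y33_41⟩ : ∃ w : G, w33 * y = w := ⟨_, rfl⟩
  obtain ⟨w42, X35_42⟩ : ∃ w : G, w35 * x = w := ⟨_, rfl⟩
  obtain ⟨w43, Y36_43⟩ : ∃ w : G, w36 * y = w := ⟨_, rfl⟩
  obtain ⟨w44, Y37_44⟩ : ∃ w : G, w37 * y = w := ⟨_, rfl⟩
  obtain ⟨w45, X39_45⟩ : ∃ w : G, w39 * x = w := ⟨_, rfl⟩
  obtain ⟨w46, X40_46⟩ : ∃ w : G, w40 * x = w := ⟨_, rfl⟩
  obtain ⟨w47, Y40_47⟩ : ∃ w : G, w40 * y = w := ⟨_, rfl⟩
  obtain ⟨w48, Y41_48⟩ : ∃ w : G, w41 * y = w := ⟨_, rfl⟩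
  obtain ⟨w49, Y42_49⟩ : ∃ w : G, w42 * y = w := ⟨_, rfl⟩
  obtain ⟨w50, X43_50⟩ : ∃ w : G, w43 * x = w := ⟨_, rfl⟩
  obtain ⟨w51, Y43_51⟩ : ∃ w : G, w43 * y = w := ⟨_, rfl⟩
  obtain ⟨w52, Y44_52⟩ : ∃ w : G, w44 * y = w := ⟨_, rfl⟩
  obtain ⟨w53, Y45_53⟩ : ∃ w : G, w45 * y = w := ⟨_, rfl⟩
  obtain ⟨w54, X48_54⟩ : ∃ w : G, w48 * x = w := ⟨_, rfl⟩
  obtain ⟨w55, X49_55⟩ : ∃ w : G, w49 * x = w := ⟨_, rfl⟩
  obtain ⟨w56, X52_56⟩ : ∃ w : G, w52 * x = w := ⟨_, rfl⟩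
  obtain ⟨w57, X53_57⟩ : ∃ w : G, w53 * x = w := ⟨_, rfl⟩
  obtain ⟨w58, Y54_58⟩ : ∃ w : G, w54 * y = w := ⟨_, rfl⟩
  obtain ⟨w59, Y56_59⟩ : ∃ w : G, w56 * y = w := ⟨_, rfl⟩
  have X1_0 : w1 * x = w0 := by rw [← X0_1, mul_assoc, hx, mul_one]
  have Y5_0 : w5 * y = w0 := by rw [← Y2_5, ← Y0_2, mul_assoc, mul_assoc, ← mul_assoc y y y, hy, mul_one]
  have Y7_1 : w7 * y = w1 := by rw [← Y3_7, ← Y1_3, mul_assoc, mul_assoc, ← mul_assoc y y y, hy, mul_one]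
  have X4_2 : w4 * x = w2 := by rw [← X2_4, mul_assoc, hx, mul_one]
  have X6_3 : w6 * x = w3 := by rw [← X3_6, mul_assoc, hx, mul_one]
  have Y13_4 : w13 * y = w4 := by rw [← Y8_13, ← Y4_8, mul_assoc, mul_assoc, ← mul_assoc y y y, hy, mul_one]
  have X9_5 : w9 * x = w5 := by rw [← X5_9, mul_assoc, hx, mul_one]
  have Y16_6 : w16 * y = w6 := by rw [← Y10_16, ← Y6_10, mul_assoc, mul_assoc, ← mul_assoc y y y, hy, mul_one]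
  have X11_7 : w11 * x = w7 := by rw [← X7_11, mul_assoc, hx, mul_one]
  have X12_8 : w12 * x = w8 := by rw [← X8_12, mul_assoc, hx, mul_one]
  have Y21_9 : w21 * y = w9 := by rw [← Y14_21, ← Y9_14, mul_assoc, mul_assoc, ← mul_assoc y y y, hy, mul_one]
  have X15_10 : w15 * x = w10 := by rw [← X10_15, mul_assoc, hx, mul_one]
  have Y25_11 : w25 * y = w11 := by rw [← Y17_25, ← Y11_17, mul_assoc, mul_assoc, ← mul_assoc y y y, hy, mul_one]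
  have Y26_12 : w26 * y = w12 := by rw [← Y18_26, ← Y12_18, mul_assoc, mul_assoc, ← mul_assoc y y y, hy, mul_one]
  have X19_13 : w19 * x = w13 := by rw [← X13_19, mul_assoc, hx, mul_one]
  have X20_14 : w20 * x = w14 := by rw [← X14_20, mul_assoc, hx, mul_one]
  have Y29_15 : w29 * y = w15 := by rw [← Y22_29, ← Y15_22, mul_assoc, mul_assoc, ← mul_assoc y y y, hy, mul_one]
  have X23_16 : w23 * x = w16 := by rw [← X16_23, mul_assoc, hx, mul_one]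
  have X24_17 : w24 * x = w17 := by rw [← X17_24, mul_assoc, hx, mul_one]
  have Y34_19 : w34 * y = w19 := by rw [← Y27_34, ← Y19_27, mul_assoc, mul_assoc, ← mul_assoc y y y, hy, mul_one]
  have Y35_20 : w35 * y = w20 := by rw [← Y28_35, ← Y20_28, mul_assoc, mul_assoc, ← mul_assoc y y y, hy, mul_one]
  have Y38_23 : w38 * y = w23 := by rw [← Y30_38, ← Y23_30, mul_assoc, mul_assoc, ← mul_assoc y y y, hy, mul_one]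
  have Y39_24 : w39 * y = w24 := by rw [← Y31_39, ← Y24_31, mul_assoc, mul_assoc, ← mul_assoc y y y, hy, mul_one]
  have X32_26 : w32 * x = w26 := by rw [← X26_32, mul_assoc, hx, mul_one]
  have X33_27 : w33 * x = w27 := by rw [← X27_33, mul_assoc, hx, mul_one]
  have X36_29 : w36 * x = w29 := by rw [← X29_36, mul_assoc, hx, mul_one]
  have X37_30 : w37 * x = w30 := by rw [← X30_37, mul_assoc, hx, mul_one]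
  have Y47_32 : w47 * y = w32 := by rw [← Y40_47, ← Y32_40, mul_assoc, mul_assoc, ← mul_assoc y y y, hy, mul_one]
  have Y48_33 : w48 * y = w33 := by rw [← Y41_48, ← Y33_41, mul_assoc, mul_assoc, ← mul_assoc y y y, hy, mul_one]
  have X42_35 : w42 * x = w35 := by rw [← X35_42, mul_assoc, hx, mul_one]
  have Y51_36 : w51 * y = w36 := by rw [← Y43_51, ← Y36_43, mul_assoc, mul_assoc, ← mul_assoc y y y, hy, mul_one]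
  have Y52_37 : w52 * y = w37 := by rw [← Y44_52, ← Y37_44, mul_assoc, mul_assoc, ← mul_assoc y y y, hy, mul_one]
  have X45_39 : w45 * x = w39 := by rw [← X39_45, mul_assoc, hx, mul_one]
  have X46_40 : w46 * x = w40 := by rw [← X40_46, mul_assoc, hx, mul_one]
  have X50_43 : w50 * x = w43 := by rw [← X43_50, mul_assoc, hx, mul_one]
  have X54_48 : w54 * x = w48 := by rw [← X48_54, mul_assoc, hx, mul_one]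
  have X55_49 : w55 * x = w49 := by rw [← X49_55, mul_assoc, hx, mul_one]
  have X56_52 : w56 * x = w52 := by rw [← X52_56, mul_assoc, hx, mul_one]
  have X57_53 : w57 * x = w53 := by rw [← X53_57, mul_assoc, hx, mul_one]
  have X22_21 : w22 * x = w21 := by
    have h1 := h5 w0
    rw [X0_1, Y1_3, X3_6, Y6_10, X10_15, Y15_22] at h1
    have h2 : w21 * y * x * y = w0 := by rw [Y21_9, X9_5, Y5_0]
    rw [← h2] at h1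
    exact mul_right_cancel (mul_right_cancel (mul_right_cancel h1))
  have X21_22 : w21 * x = w22 := by rw [← X22_21, mul_assoc, hx, mul_one]
  have X18_25 : w18 * x = w25 := by
    have h1 := h5 w1
    rw [X1_0, Y0_2, X2_4, Y4_8, X8_12, Y12_18] at h1
    have h2 : w25 * y * x * y = w1 := by rw [Y25_11, X11_7, Y7_1]
    rw [← h2] at h1
    exact mul_right_cancel (mul_right_cancel (mul_right_cancel h1))
  have X25_18 : w25 * x = w18 := by rw [← X18_25, mul_assoc, hx, mul_one]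
  have X28_34 : w28 * x = w34 := by
    have h1 := h5 w4
    rw [X4_2, Y2_5, X5_9, Y9_14, X14_20, Y20_28] at h1
    have h2 : w34 * y * x * y = w4 := by rw [Y34_19, X19_13, Y13_4]
    rw [← h2] at h1
    exact mul_right_cancel (mul_right_cancel (mul_right_cancel h1))
  have X34_28 : w34 * x = w28 := by rw [← X28_34, mul_assoc, hx, mul_one]
  have X31_38 : w31 * x = w38 := by
    have h1 := h5 w6
    rw [X6_3, Y3_7, X7_11, Y11_17, X17_24, Y24_31] at h1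
    have h2 : w38 * y * x * y = w6 := by rw [Y38_23, X23_16, Y16_6]
    rw [← h2] at h1
    exact mul_right_cancel (mul_right_cancel (mul_right_cancel h1))
  have X38_31 : w38 * x = w31 := by rw [← X31_38, mul_assoc, hx, mul_one]
  have X41_47 : w41 * x = w47 := by
    have h1 := h5 w12
    rw [X12_8, Y8_13, X13_19, Y19_27, X27_33, Y33_41] at h1
    have h2 : w47 * y * x * y = w12 := by rw [Y47_32, X32_26, Y26_12]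
    rw [← h2] at h1
    exact mul_right_cancel (mul_right_cancel (mul_right_cancel h1))
  have X47_41 : w47 * x = w41 := by rw [← X41_47, mul_assoc, hx, mul_one]
  have X44_51 : w44 * x = w51 := by
    have h1 := h5 w15
    rw [X15_10, Y10_16, X16_23, Y23_30, X30_37, Y37_44] at h1
    have h2 : w51 * y * x * y = w15 := by rw [Y51_36, X36_29, Y29_15]
    rw [← h2] at h1
    exact mul_right_cancel (mul_right_cancel (mul_right_cancel h1))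
  have X51_44 : w51 * x = w44 := by rw [← X44_51, mul_assoc, hx, mul_one]
  have Y50_42 : w50 * y = w42 := by
    have h1 := h5 w20
    rw [X20_14, Y14_21, X21_22, Y22_29, X29_36, Y36_43, X43_50] at h1
    have h2 : w42 * x * y = w20 := by rw [X42_35, Y35_20]
    rw [← h2] at h1
    exact mul_right_cancel (mul_right_cancel h1)
  have Y49_50 : w49 * y = w50 := by rw [← Y42_49, ← Y50_42, mul_assoc, mul_assoc, ← mul_assoc y y y, hy, mul_one]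
  have Y46_45 : w46 * y = w45 := by
    have h1 := h5 w24
    rw [X24_17, Y17_25, X25_18, Y18_26, X26_32, Y32_40, X40_46] at h1
    have h2 : w45 * x * y = w24 := by rw [X45_39, Y39_24]
    rw [← h2] at h1
    exact mul_right_cancel (mul_right_cancel h1)
  have Y53_46 : w53 * y = w46 := by rw [← Y45_53, ← Y46_45, mul_assoc, mul_assoc, ← mul_assoc y y y, hy, mul_one]
  have Y55_54 : w55 * y = w54 := by
    have h1 := h5 w33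
    rw [X33_27, Y27_34, X34_28, Y28_35, X35_42, Y42_49, X49_55] at h1
    have h2 : w54 * x * y = w33 := by rw [X54_48, Y48_33]
    rw [← h2] at h1
    exact mul_right_cancel (mul_right_cancel h1)
  have Y58_55 : w58 * y = w55 := by rw [← Y54_58, ← Y55_54, mul_assoc, mul_assoc, ← mul_assoc y y y, hy, mul_one]
  have Y57_56 : w57 * y = w56 := by
    have h1 := h5 w37
    rw [X37_30, Y30_38, X38_31, Y31_39, X39_45, Y45_53, X53_57] at h1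
    have h2 : w56 * x * y = w37 := by rw [X56_52, Y52_37]
    rw [← h2] at h1
    exact mul_right_cancel (mul_right_cancel h1)
  have Y59_57 : w59 * y = w57 := by rw [← Y56_59, ← Y57_56, mul_assoc, mul_assoc, ← mul_assoc y y y, hy, mul_one]
  have X58_59 : w58 * x = w59 := by
    have h1 := h5 w46
    rw [X46_40, Y40_47, X47_41, Y41_48, X48_54, Y54_58] at h1
    have h2 : w59 * y * x * y = w46 := by rw [Y59_57, X57_53, Y53_46]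
    rw [← h2] at h1
    exact mul_right_cancel (mul_right_cancel (mul_right_cancel h1))
  have X59_58 : w59 * x = w58 := by rw [← X58_59, mul_assoc, hx, mul_one]
  refine ⟨![w0, w1, w2, w3, w4, w5, w6, w7, w8, w9, w10, w11, w12, w13, w14, w15, w16, w17, w18, w19, w20, w21, w22, w23, w24, w25, w26, w27, w28, w29, w30, w31, w32, w33, w34, w35, w36, w37, w38, w39, w40, w41, w42, w43, w44, w45, w46, w47, w48, w49, w50, w51, w52, w53, w54, w55, w56, w57, w58, w59], ⟨0, hw0⟩, fun i => ?_⟩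
  fin_cases i
  · exact ⟨⟨1, X0_1.symm⟩, ⟨2, Y0_2.symm⟩⟩
  · exact ⟨⟨0, X1_0.symm⟩, ⟨3, Y1_3.symm⟩⟩
  · exact ⟨⟨4, X2_4.symm⟩, ⟨5, Y2_5.symm⟩⟩
  · exact ⟨⟨6, X3_6.symm⟩, ⟨7, Y3_7.symm⟩⟩
  · exact ⟨⟨2, X4_2.symm⟩, ⟨8, Y4_8.symm⟩⟩
  · exact ⟨⟨9, X5_9.symm⟩, ⟨0, Y5_0.symm⟩⟩
  · exact ⟨⟨3, X6_3.symm⟩, ⟨10, Y6_10.symm⟩⟩
  · exact ⟨⟨11, X7_11.symm⟩, ⟨1, Y7_1.symm⟩⟩
  · exact ⟨⟨12, X8_12.symm⟩, ⟨13, Y8_13.symm⟩⟩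
  · exact ⟨⟨5, X9_5.symm⟩, ⟨14, Y9_14.symm⟩⟩
  · exact ⟨⟨15, X10_15.symm⟩, ⟨16, Y10_16.symm⟩⟩
  · exact ⟨⟨7, X11_7.symm⟩, ⟨17, Y11_17.symm⟩⟩
  · exact ⟨⟨8, X12_8.symm⟩, ⟨18, Y12_18.symm⟩⟩
  · exact ⟨⟨19, X13_19.symm⟩, ⟨4, Y13_4.symm⟩⟩
  · exact ⟨⟨20, X14_20.symm⟩, ⟨21, Y14_21.symm⟩⟩
  · exact ⟨⟨10, X15_10.symm⟩, ⟨22, Y15_22.symm⟩⟩
  · exact ⟨⟨23, X16_23.symm⟩, ⟨6, Y16_6.symm⟩⟩
  · exact ⟨⟨24, X17_24.symm⟩, ⟨25, Y17_25.symm⟩⟩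
  · exact ⟨⟨25, X18_25.symm⟩, ⟨26, Y18_26.symm⟩⟩
  · exact ⟨⟨13, X19_13.symm⟩, ⟨27, Y19_27.symm⟩⟩
  · exact ⟨⟨14, X20_14.symm⟩, ⟨28, Y20_28.symm⟩⟩
  · exact ⟨⟨22, X21_22.symm⟩, ⟨9, Y21_9.symm⟩⟩
  · exact ⟨⟨21, X22_21.symm⟩, ⟨29, Y22_29.symm⟩⟩
  · exact ⟨⟨16, X23_16.symm⟩, ⟨30, Y23_30.symm⟩⟩
  · exact ⟨⟨17, X24_17.symm⟩, ⟨31, Y24_31.symm⟩⟩
  · exact ⟨⟨18, X25_18.symm⟩, ⟨11, Y25_11.symm⟩⟩
  · exact ⟨⟨32, X26_32.symm⟩, ⟨12, Y26_12.symm⟩⟩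
  · exact ⟨⟨33, X27_33.symm⟩, ⟨34, Y27_34.symm⟩⟩
  · exact ⟨⟨34, X28_34.symm⟩, ⟨35, Y28_35.symm⟩⟩
  · exact ⟨⟨36, X29_36.symm⟩, ⟨15, Y29_15.symm⟩⟩
  · exact ⟨⟨37, X30_37.symm⟩, ⟨38, Y30_38.symm⟩⟩
  · exact ⟨⟨38, X31_38.symm⟩, ⟨39, Y31_39.symm⟩⟩
  · exact ⟨⟨26, X32_26.symm⟩, ⟨40, Y32_40.symm⟩⟩
  · exact ⟨⟨27, X33_27.symm⟩, ⟨41, Y33_41.symm⟩⟩
  · exact ⟨⟨28, X34_28.symm⟩, ⟨19, Y34_19.symm⟩⟩
  · exact ⟨⟨42, X35_42.symm⟩, ⟨20, Y35_20.symm⟩⟩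
  · exact ⟨⟨29, X36_29.symm⟩, ⟨43, Y36_43.symm⟩⟩
  · exact ⟨⟨30, X37_30.symm⟩, ⟨44, Y37_44.symm⟩⟩
  · exact ⟨⟨31, X38_31.symm⟩, ⟨23, Y38_23.symm⟩⟩
  · exact ⟨⟨45, X39_45.symm⟩, ⟨24, Y39_24.symm⟩⟩
  · exact ⟨⟨46, X40_46.symm⟩, ⟨47, Y40_47.symm⟩⟩
  · exact ⟨⟨47, X41_47.symm⟩, ⟨48, Y41_48.symm⟩⟩
  · exact ⟨⟨35, X42_35.symm⟩, ⟨49, Y42_49.symm⟩⟩
  · exact ⟨⟨50, X43_50.symm⟩, ⟨51, Y43_51.symm⟩⟩
  · exact ⟨⟨51, X44_51.symm⟩, ⟨52, Y44_52.symm⟩⟩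
  · exact ⟨⟨39, X45_39.symm⟩, ⟨53, Y45_53.symm⟩⟩
  · exact ⟨⟨40, X46_40.symm⟩, ⟨45, Y46_45.symm⟩⟩
  · exact ⟨⟨41, X47_41.symm⟩, ⟨32, Y47_32.symm⟩⟩
  · exact ⟨⟨54, X48_54.symm⟩, ⟨33, Y48_33.symm⟩⟩
  · exact ⟨⟨55, X49_55.symm⟩, ⟨50, Y49_50.symm⟩⟩
  · exact ⟨⟨43, X50_43.symm⟩, ⟨42, Y50_42.symm⟩⟩
  · exact ⟨⟨44, X51_44.symm⟩, ⟨36, Y51_36.symm⟩⟩
  · exact ⟨⟨56, X52_56.symm⟩, ⟨37, Y52_37.symm⟩⟩
  · exact ⟨⟨57, X53_57.symm⟩, ⟨46, Y53_46.symm⟩⟩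
  · exact ⟨⟨48, X54_48.symm⟩, ⟨58, Y54_58.symm⟩⟩
  · exact ⟨⟨49, X55_49.symm⟩, ⟨54, Y55_54.symm⟩⟩
  · exact ⟨⟨52, X56_52.symm⟩, ⟨59, Y56_59.symm⟩⟩
  · exact ⟨⟨53, X57_53.symm⟩, ⟨56, Y57_56.symm⟩⟩
  · exact ⟨⟨59, X58_59.symm⟩, ⟨55, Y58_55.symm⟩⟩
  · exact ⟨⟨58, X59_58.symm⟩, ⟨57, Y59_57.symm⟩⟩

end Pool.Agent.TH642
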