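import Pool.Agent.TH672.StrN
import Pool.Agent.TH545.J199

/-!
# Job 265 (MYC-14): chains of numerals for strings, derivations of polynomial length
-/

set_option autoImplicit false

namespace Pool.Agent.TH672

open Form

namespace J265

/-- induction along strings -/
theorem pd_list {Γ : List Form} {F : List Bool → Form}
    (h0 : PD Γ (fun _ : Unit => 0) (fun _ => []) (fun _ => F []))
    (hs : ∀ a, PD Γ List.length (fun w => [F w]) (fun w => F (w ++ [a]))) :
    PD Γ List.length (fun _ => []) F := by
  obtain ⟨f, -, h2⟩ := h0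
  choose g hg hE using hs
  choose c hc using hg
  set d := c false + c true with hd
  have h3 : ∀ (a : Bool) (w : List Bool),
      Ext Γ [F w] (d * (w.length + 1) ^ d) (F (w ++ [a])) := by
    intro a w
    have h4 : c a ≤ d := by cases a <;> omega
    refine (hE a w).le ((hc a w).trans ?_)
    exact Nat.mul_le_mul h4 (pow_le_pow_succ' _ h4)
  have h5 : ∀ (w : List Bool) (n : ℕ), w.length ≤ n →
      Ext Γ [] (f () + w.length * (d * (n + 1) ^ d)) (F w) := by
    intro w
    induction w using List.reverseRecOn with
    | nil =>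
      intro n _
      exact (h2 ()).le (by simp)
    | append_singleton w a ih =>
      intro n hn
      rw [List.length_append, List.length_singleton] at hn ⊢
      have h6 := ih n (by omega)
      refine (h6.cut (h3 a w)).le ?_
      have h7 : d * (w.length + 1) ^ d ≤ d * (n + 1) ^ d :=
        Nat.mul_le_mul_left _ (Nat.pow_le_pow_left (by omega) _)
      rw [Nat.succ_mul]
      omega
  refine ⟨fun w => f () + w.length * (d * (w.length + 1) ^ d), ?_, fun w => h5 w _ le_rfl⟩
  exact (Pb.const _).add (Pb.size.mul ((Pb.const d).mul ((Pb.size.add (Pb.const 1)).pow d)))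

variable {J : Type} {sz : J → ℕ} {C : J → List Form}

theorem closed_fRR (σ : List Bool) (y y' : Sy) : (fRR σ y y').Closed := by
  intro x hx
  simp only [fRR, free_alls, free_iff', free_exs, free_and', free_f1,
    free_appS σ (show 21 < 82 by omega) (show 20 < 80 by omega), List.mem_cons, List.not_mem_nil,
    or_false] at hx
  omega

theorem av_fRR (σ : List Bool) (y y' : Sy) : Av (fRR σ y y') := by
  simp only [fRR, av_alls, av_iff', av_exs, av_and', av_f1, List.mem_cons, List.not_mem_nil,
    or_false, forall_eq]
  exact ⟨by decide, by decide, by decide, by decide, av_appS σ (by decide) (by decide)⟩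

theorem closed_fKK (A : List Form) (u w l : Sy) : (fKK A u w l).Closed := by
  intro x hx
  simp only [fKK, free_alls, free_imps_cons, free_imps_nil, free_and', free_f1, free_f2, free_f3,
    free_isS (strs A) (show 20 < 79 by omega), List.mem_cons, List.not_mem_nil, or_false] at hx
  omega

theorem av_fKK (A : List Form) (u w l : Sy) : Av (fKK A u w l) := by
  simp only [fKK, av_alls, av_imps_cons, av_imps_nil, av_and', av_f1, av_f2, av_f3]
  refine ⟨?_, av_isS (strs A) (by decide), by decide, by decide, by decide, ?_, ?_⟩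
  · intro x hx
    simp only [List.mem_cons, List.not_mem_nil, or_false] at hx
    rcases hx with rfl | rfl | rfl | rfl <;> decide
  · exact ⟨by decide, by decide, by decide⟩
  · exact ⟨by decide, by decide⟩

/-- the translation of `fRR` -/
def gRR (σ : List Bool) (A B : Form) : Form :=
  tr (mk (fun _ => .bot) [A, B]) (fRR σ (.o 0) (.o 1))

theorem tr_fRR (ι : Sy → Form) (σ : List Bool) (y y' : Sy) :
    tr ι (fRR σ y y') = gRR σ (ι y) (ι y') := by
  simp only [gRR, fRR, alls, exs, Fm.iff, Fm.and, Fm.neg, Fm.ex, f1, tr]
  rw [tr_appS ι, tr_appS (mk (fun _ => Form.bot) [ι y, ι y'])]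
  rfl

/-- the translation of the definition of a numeral -/
def gY (a : Bool) (A B : Form) : Form :=
  tr (mk (fun _ => .bot) [A, B]) (defEq (.o 1) (dY a (.o 0)))

theorem tr_dY (ι : Sy → Form) (a : Bool) (y y' : Sy) :
    tr ι (defEq y' (dY a y)) = gY a (ι y) (ι y') := by
  cases a <;> rfl

/-- the translation of `fKK` -/
def gKK (L : List Form) (A B D T N : Form) : Form :=
  tr (mk (fun s => match s with | .tm3 => T | .ln => N | _ => .bot) [A, B, D])
    (fKK L (.o 0) (.o 1) (.o 2))

theorem tr_fKK (ι : Sy → Form) (L : List Form) (u w l : Sy) :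
    tr ι (fKK L u w l) = gKK L (ι u) (ι w) (ι l) (ι .tm3) (ι .ln) := by
  simp only [gKK, fKK, alls, imps, Fm.and, Fm.neg, f1, f2, f3, tr]
  rw [tr_isS ι, tr_isS (mk _ _)]
  rfl

theorem tr_fRR' {ι ι' : Sy → Form} {σ : List Bool} {x y x' y' : Sy} (h : ι x = ι' x')
    (h' : ι y = ι' y') : tr ι (fRR σ x y) = tr ι' (fRR σ x' y') := by
  rw [tr_fRR, tr_fRR, h, h']

theorem tr_dY' {ι ι' : Sy → Form} {a : Bool} {x y x' y' : Sy} (h : ι x = ι' x')
    (h' : ι y = ι' y') : tr ι (defEq y (dY a x)) = tr ι' (defEq y' (dY a x')) := by
  rw [tr_dY, tr_dY, h, h']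

theorem tr_fKK' {ι ι' : Sy → Form} {L : List Form} {x y z x' y' z' : Sy} (h : ι x = ι' x')
    (h' : ι y = ι' y') (h'' : ι z = ι' z') (h3 : ι .tm3 = ι' .tm3) (h4 : ι .ln = ι' .ln) :
    tr ι (fKK L x y z) = tr ι' (fKK L x' y' z') := by
  rw [tr_fKK, tr_fKK, h, h', h'', h3, h4]

theorem pd_congr {Γ : List Form} {F G : J → Form} (h : PD Γ sz C F) (e : ∀ j, F j = G j) :
    PD Γ sz C G := by
  obtain rfl : F = G := funext e
  exact h

theorem pb_flat {f : J → List Bool} (hf : Pb sz fun j => (f j).length) (t : Bool → List Bool) :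
    Pb sz fun j => ((f j).flatMap t).length := by
  have h : ∀ w : List Bool, (w.flatMap t).length ≤ ((t false).length + (t true).length) *
      w.length := by
    intro w
    induction w with
    | nil => simp
    | cons a w ih =>
      rw [List.flatMap_cons, List.length_append, List.length_cons, Nat.mul_succ]
      have : (t a).length ≤ (t false).length + (t true).length := by cases a <;> omega
      omega
  exact ((Pb.const _).mul hf).mono fun j => h (f j)

end J265

open J265

variable {J : Type} {sz : J → ℕ} {C : J → List Form}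

theorem Setting.euY (E : Setting) {f : J → List Bool} (hf : Pb sz fun j => (f j).length) :
    PD E.Γ sz C (fun j => tr (mk E.b [Yf E.b (f j)]) (fEU (.o 0))) := by
  have main : PD E.Γ List.length (fun _ => [])
      (fun w : List Bool => tr (mk E.b [Yf E.b w]) (fEU (.o 0))) := by
    refine pd_list ?_ fun a => ?_
    · refine E.stepM (Rs := [fun _ => Z0]) ?_ [fZ (.o 0)] (fEU (.o 0)) ?_ (closed_fEU _)
        (av_fEU _) ?_ ?_
      · intro R hR
        simp only [List.mem_cons, List.not_mem_nil, or_false] at hR
        rw [hR]; exact role_Z0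
      · intro ψ hψ
        simp only [List.mem_cons, List.not_mem_nil, or_false] at hψ
        rw [hψ]
        exact ⟨closed_fZ _, av_fZ _⟩
      · intro S v hM hv
        have h1 := (sat_fZ S _ v).1 (hv _ (List.mem_cons_self ..))
        rw [sat_fEU]
        simp only [h1]
        exact ⟨hM.rob.z_ex, hM.rob.z_un⟩
      · intro ψ hψ
        simp only [List.mem_cons, List.not_mem_nil, or_false] at hψ
        rw [hψ]
        exact E.z0
    · refine E.stepM (Rs := [fun w : List Bool => Yf E.b w, fun w => Yf E.b (w ++ [a])]) ?_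
        [fEU (.o 0), defEq (.o 1) (dY a (.o 0))] (fEU (.o 1)) ?_ (closed_fEU _)
        (av_fEU _) ?_ ?_
      · intro R hR
        simp only [List.mem_cons, List.not_mem_nil, or_false] at hR
        rcases hR with rfl | rfl
        · exact E.yf_role' Pb.size
        · exact E.yf_role' ((Pb.size.add (Pb.const 1)).mono fun w => by simp)
      · intro ψ hψ
        simp only [List.mem_cons, List.not_mem_nil, or_false] at hψ
        rcases hψ with rfl | rfl
        · exact ⟨closed_fEU _, av_fEU _⟩
        · exact ⟨closed_dY _ _ _, av_dY _ _ _⟩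
      · intro S v hM hv
        have h1 := (sat_fEU S _ v).1 (hv (fEU (.o 0)) (by simp))
        have h2 := sem_dY (hv (defEq (.o 1) (dY a (.o 0))) (by simp))
        rw [sat_fEU]
        simp only [h2]
        obtain ⟨⟨x, hx⟩, h3⟩ := h1
        obtain ⟨y, hy⟩ := J199.app_ex hM.rob a x
        refine ⟨⟨y, x, hx, hy⟩, ?_⟩
        rintro y z ⟨k, h4, h5⟩ ⟨l, h6, h7⟩
        have := h3 _ _ h4 h6
        subst this
        exact J199.app_un hM.rob h5 h7
      · intro ψ hψ
        simp only [List.mem_cons, List.not_mem_nil, or_false] at hψ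
        rcases hψ with rfl | rfl
        · exact PD.hyp fun p => List.mem_cons_self ..
        · exact E.yf_succ a (f := fun w : List Bool => w) Pb.size
  have h1 := main.comp (sz' := sz) (fun j : J => f j) hf
  exact h1.ctx (by simp)

theorem Setting.rr (E : Setting) (σ : List Bool) {f : J → List Bool}
    (hf : Pb sz fun j => (f j).length) :
    PD E.Γ sz C (fun j => tr (mk E.b [Yf E.b (f j), Yf E.b (f j ++ σ)])
      (fRR σ (.o 0) (.o 1))) := by
  induction σ using List.reverseRecOn with
  | nil =>
    have h := E.stepM (sz := sz) (C := C) (Rs := [fun j => Yf E.b (f j)]) (by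
        intro R hR
        simp only [List.mem_cons, List.not_mem_nil, or_false] at hR
        rw [hR]
        exact E.yf_role' hf) [] (fRR [] (.o 0) (.o 0)) (by simp) (closed_fRR _ _ _)
        (av_fRR _ _ _) (by
          intro S v _ _
          rw [sat_fRR]
          intro z
          constructor
          · intro h
            exact ⟨z, h, rfl⟩
          · rintro ⟨w, hw, e⟩
            have e' : w = z := e
            rwa [← e']) (by simp)
    have e : (fun j => tr (mk E.b [Yf E.b (f j), Yf E.b (f j ++ [])]) (fRR [] (.o 0) (.o 1))) =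
        trR E.b [fun j => Yf E.b (f j)] (fRR [] (.o 0) (.o 0)) := by
      funext j
      rw [List.append_nil]
      rfl
    rw [e]
    exact h
  | append_singleton σ a ih =>
    have h := E.stepM (sz := sz) (C := C)
      (Rs := [fun j => Yf E.b (f j), fun j => Yf E.b (f j ++ σ), fun j => Yf E.b (f j ++ σ ++ [a])])
      (by
        intro R hR
        simp only [List.mem_cons, List.not_mem_nil, or_false] at hR
        rcases hR with rfl | rfl | rfl
        · exact E.yf_role' hf
        · exact E.yf_role' ((hf.add (Pb.const σ.length)).mono fun w => by simp)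
        · exact E.yf_role' ((hf.add (Pb.const (σ.length + 1))).mono fun w => by simp))
      [fRR σ (.o 0) (.o 1), defEq (.o 2) (dY a (.o 1))] (fRR (σ ++ [a]) (.o 0) (.o 2)) (by
        intro ψ hψ
        simp only [List.mem_cons, List.not_mem_nil, or_false] at hψ
        rcases hψ with rfl | rfl
        · exact ⟨closed_fRR _ _ _, av_fRR _ _ _⟩
        · exact ⟨closed_dY _ _ _, av_dY _ _ _⟩) (closed_fRR _ _ _)
        (av_fRR _ _ _) (by
          intro S v _ hv
          have h1 := (sat_fRR S _ _ _ v).1 (hv (fRR σ (.o 0) (.o 1)) (by simp))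
          have h2 := sem_dY (hv (defEq (.o 2) (dY a (.o 1))) (by simp))
          rw [sat_fRR]
          intro z
          rw [h2]
          constructor
          · rintro ⟨k, hk, hz⟩
            obtain ⟨w, hw, hk'⟩ := (h1 k).1 hk
            exact ⟨w, hw, J199.appL_append.2 ⟨k, hk', J199.appL_one.2 hz⟩⟩
          · rintro ⟨w, hw, hz⟩
            obtain ⟨k, hk, hz'⟩ := J199.appL_append.1 hz
            exact ⟨k, (h1 k).2 ⟨w, hw, hk⟩, J199.appL_one.1 hz'⟩) (by
          intro ψ hψ
          simp only [List.mem_cons, List.not_mem_nil, or_false] at hψ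
          rcases hψ with rfl | rfl
          · exact pd_congr ih fun j => tr_fRR' rfl rfl
          · have h2 := E.yf_succ (C := C) a (f := fun j => f j ++ σ)
              ((hf.add (Pb.const σ.length)).mono fun w => by simp)
            exact pd_congr h2 fun j => tr_dY' rfl rfl)
    simp only [← List.append_assoc]
    exact pd_congr h fun j => tr_fRR' rfl rfl

theorem Setting.kk (E : Setting) {f : J → List Bool} (hf : Pb sz fun j => (f j).length) :
    PD E.Γ sz C (fun j => tr (mk E.b [Yf E.b (f j),
      Yf E.b (strs E.Γ ++ hd 3 ++ (f j).flatMap (tmpl 3)), Nf E.b (f j).length])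
      (fKK E.Γ (.o 0) (.o 1) (.o 2))) := by
  have main : PD E.Γ List.length (fun _ => []) (fun w : List Bool => tr (mk E.b [Yf E.b w,
      Yf E.b (strs E.Γ ++ hd 3 ++ w.flatMap (tmpl 3)), Nf E.b w.length])
      (fKK E.Γ (.o 0) (.o 1) (.o 2))) := by
    refine pd_list ?_ fun a => ?_
    · have h := E.stepM (sz := fun _ : Unit => 0) (C := fun _ => [])
        (Rs := [fun _ => Z0, fun _ => Yf E.b (strs E.Γ), fun _ => Yf E.b (strs E.Γ ++ hd 3)])
        (by
          intro R hR
          simp only [List.mem_cons, List.not_mem_nil, or_false] at hR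
          rcases hR with rfl | rfl | rfl
          · exact role_Z0
          · exact E.yf_role' (Pb.const _)
          · exact E.yf_role' (Pb.const _))
        [fZ (.o 0), fRR (strs E.Γ) (.o 0) (.o 1), fRR (hd 3) (.o 1) (.o 2)]
        (fKK E.Γ (.o 0) (.o 2) (.o 0)) (by
          intro ψ hψ
          simp only [List.mem_cons, List.not_mem_nil, or_false] at hψ
          rcases hψ with rfl | rfl | rfl
          · exact ⟨closed_fZ _, av_fZ _⟩
          · exact ⟨closed_fRR _ _ _, av_fRR _ _ _⟩
          · exact ⟨closed_fRR _ _ _, av_fRR _ _ _⟩) (closed_fKK _ _ _ _) (av_fKK _ _ _ _) (by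
          intro S v hM hv
          have h1 := (sat_fZ S _ v).1 (hv (fZ (.o 0)) (by simp))
          have h2 := (sat_fRR S _ _ _ v).1 (hv (fRR (strs E.Γ) (.o 0) (.o 1)) (by simp))
          have h3 := (sat_fRR S _ _ _ v).1 (hv (fRR (hd 3) (.o 1) (.o 2)) (by simp))
          rw [sat_fKK]
          intro x e g l hx he hg hl
          rw [h1] at he hl
          obtain ⟨w, hw, hg'⟩ := (h3 g).1 hg
          obtain ⟨z, hz, hw'⟩ := (h2 w).1 hw
          rw [h1] at hz
          have hwx : w = x := J199.strV_un hM.rob ⟨z, hz, hw'⟩ hx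
          subst hwx
          exact ⟨hM.t1 (.tm3, 3) (by simp) w e g he hg', hM.n1 e l he hl⟩) (by
          intro ψ hψ
          simp only [List.mem_cons, List.not_mem_nil, or_false] at hψ
          rcases hψ with rfl | rfl | rfl
          · exact E.z0
          · have h2 := E.rr (sz := fun _ : Unit => 0) (C := fun _ => []) (strs E.Γ)
              (f := fun _ => []) (Pb.const 0)
            exact pd_congr h2 fun j => tr_fRR' rfl rfl
          · have h2 := E.rr (sz := fun _ : Unit => 0) (C := fun _ => []) (hd 3)
              (f := fun _ => strs E.Γ) (Pb.const _)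
            exact pd_congr h2 fun j => tr_fRR' rfl rfl)
      simp only [List.flatMap_nil, List.append_nil]
      exact pd_congr h fun j => tr_fKK' rfl rfl rfl rfl rfl
    · have hW : Pb List.length (fun w : List Bool =>
          (strs E.Γ ++ hd 3 ++ w.flatMap (tmpl 3)).length) :=
        ((Pb.const (strs E.Γ ++ hd 3).length).add (pb_flat (f := fun w : List Bool => w)
          Pb.size (tmpl 3))).mono fun w => by rw [List.length_append]
      have h := E.stepM (sz := List.length) (C := fun w : List Bool => [tr (mk E.b [Yf E.b w,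
          Yf E.b (strs E.Γ ++ hd 3 ++ w.flatMap (tmpl 3)), Nf E.b w.length])
          (fKK E.Γ (.o 0) (.o 1) (.o 2))])
        (Rs := [fun w => Yf E.b w, fun w => Yf E.b (strs E.Γ ++ hd 3 ++ w.flatMap (tmpl 3)),
          fun w => Nf E.b w.length, fun w => Yf E.b (w ++ [a]),
          fun w => Yf E.b (strs E.Γ ++ hd 3 ++ w.flatMap (tmpl 3) ++ tmpl 3 a),
          fun w => Nf E.b (w.length + 1)])
        (by
          intro R hR
          simp only [List.mem_cons, List.not_mem_nil, or_false] at hR
          rcases hR with rfl | rfl | rfl | rfl | rfl | rfl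
          · exact E.yf_role' Pb.size
          · exact E.yf_role' hW
          · exact E.nf_role' Pb.size
          · exact E.yf_role' ((Pb.size.add (Pb.const 1)).mono fun w => by simp)
          · exact E.yf_role' ((hW.add (Pb.const (tmpl 3 a).length)).mono fun w => by
              rw [List.length_append])
          · exact E.nf_role' (Pb.size.add (Pb.const 1)))
        [fKK E.Γ (.o 0) (.o 1) (.o 2), defEq (.o 3) (dY a (.o 0)),
          fRR (tmpl 3 a) (.o 1) (.o 4), defEq (.o 5) (dN (.o 2))]
        (fKK E.Γ (.o 3) (.o 4) (.o 5)) (by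
          intro ψ hψ
          simp only [List.mem_cons, List.not_mem_nil, or_false] at hψ
          rcases hψ with rfl | rfl | rfl | rfl
          · exact ⟨closed_fKK _ _ _ _, av_fKK _ _ _ _⟩
          · exact ⟨closed_dY _ _ _, av_dY _ _ _⟩
          · exact ⟨closed_fRR _ _ _, av_fRR _ _ _⟩
          · exact ⟨closed_dN _ _, av_dN _ _⟩) (closed_fKK _ _ _ _) (av_fKK _ _ _ _) (by
          intro S v hM hv
          have h1 := (sat_fKK S _ _ _ _ v).1 (hv (fKK E.Γ (.o 0) (.o 1) (.o 2)) (by simp))
          have h2 := sem_dY (hv (defEq (.o 3) (dY a (.o 0))) (by simp))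
          have h3 := (sat_fRR S _ _ _ v).1 (hv (fRR (tmpl 3 a) (.o 1) (.o 4)) (by simp))
          have h4 := sem_dN (hv (defEq (.o 5) (dN (.o 2))) (by simp))
          rw [sat_fKK]
          intro x e g l hx he hg hl
          obtain ⟨k, hk, he'⟩ := (h2 e).1 he
          obtain ⟨w, hw, hg'⟩ := (h3 g).1 hg
          obtain ⟨m, hm, hl'⟩ := (h4 l).1 hl
          obtain ⟨h5, h6⟩ := h1 x k w m hx hk hw hm
          exact ⟨hM.t2 (.tm3, 3) (by simp) a x k w e g h5 he' hg', hM.n2 a k m e l h6 he' hl'⟩) (by
          intro ψ hψ
          simp only [List.mem_cons, List.not_mem_nil, or_false] at hψ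
          rcases hψ with rfl | rfl | rfl | rfl
          · refine PD.hyp fun w => ?_
            refine List.mem_cons.2 (Or.inl ?_)
            exact tr_fKK' rfl rfl rfl rfl rfl
          · have h2 := E.yf_succ (sz := List.length) (C := fun w : List Bool =>
              [tr (mk E.b [Yf E.b w, Yf E.b (strs E.Γ ++ hd 3 ++ w.flatMap (tmpl 3)),
                Nf E.b w.length]) (fKK E.Γ (.o 0) (.o 1) (.o 2))]) a
              (f := fun w : List Bool => w) Pb.size
            exact pd_congr h2 fun j => tr_dY' rfl rfl
          · have h2 := E.rr (sz := List.length) (C := fun w : List Bool =>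
              [tr (mk E.b [Yf E.b w, Yf E.b (strs E.Γ ++ hd 3 ++ w.flatMap (tmpl 3)),
                Nf E.b w.length]) (fKK E.Γ (.o 0) (.o 1) (.o 2))]) (tmpl 3 a)
              (f := fun w : List Bool => strs E.Γ ++ hd 3 ++ w.flatMap (tmpl 3)) hW
            exact pd_congr h2 fun j => tr_fRR' rfl rfl
          · exact E.nf_succ (f := fun w : List Bool => w.length) Pb.size)
      refine pd_congr h fun w => ?_
      simp only [List.flatMap_append, List.flatMap_cons, List.flatMap_nil,
        List.append_nil, List.length_append, List.length_singleton]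
      rw [← List.append_assoc (strs E.Γ ++ hd 3)]
      exact tr_fKK' rfl rfl rfl rfl rfl
  have h1 := main.comp (sz' := sz) (fun j : J => f j) hf
  exact h1.ctx (by simp)

end Pool.Agent.TH672
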